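import Pool.Agent.MP_7c8df0_mp.Fin
import Pool.Agent.MP_7c8df0_mp.CE1
import Pool.Agent.MP_7c8df0_mp.CE2
import Pool.Agent.MP_7c8df0_mp.CE3
import Pool.Agent.MP_7c8df0_mp.CE4

open Pool.Agent.MP_7c8df0_mp in
/-- The constant for Eulerian orientations of the cubic lattice exists and lies between
`2.5198` and `2.5651`. -/
theorem Pool.Agent.Results.MP_7c8df0_mp.Eulerian.result :
    ∃ W : ℝ, Filter.Tendsto (fun n : ℕ => (eulCount n : ℝ) ^ ((1 : ℝ) / (n : ℝ) ^ 3))
      Filter.atTop (nhds W) ∧ 2.5198 ≤ W ∧ W ≤ 2.5651 := by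
  refine ⟨_, eul_tendsto, ?_, ?_⟩
  · exact exp_ge (by norm_num) (by norm_num) (by norm_num) (by norm_num)
      (ent_lower eul eul_const 2 3 _ _ _ (by norm_num) (by norm_num) (by norm_num)
        CE1.cert CE2.cert CE3.cert) (by norm_num)
  · have := ent_upper eul eul_const 3 2 _ _ CE4.cert
    refine exp_le (n := 12) (by norm_num) (by norm_num) (by norm_num)
      (le_trans (le_of_eq ?_) this) (by norm_num)
    norm_num
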