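import Pool.Agent.MP_7c8df0_mp.Fin
import Pool.Agent.MP_7c8df0_mp.CI1
import Pool.Agent.MP_7c8df0_mp.CI2
import Pool.Agent.MP_7c8df0_mp.CI3
import Pool.Agent.MP_7c8df0_mp.CI4

open Pool.Agent.MP_7c8df0_mp in
/-- The constant for ice-rule configurations on the cubic lattice exists and lies between
`3.372` and `3.6331`. -/
theorem Pool.Agent.Results.MP_7c8df0_mp.Ice.result :
    ∃ W : ℝ, Filter.Tendsto (fun n : ℕ => (iceCount n : ℝ) ^ ((1 : ℝ) / (n : ℝ) ^ 3))
      Filter.atTop (nhds W) ∧ 3.372 ≤ W ∧ W ≤ 3.6331 := by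
  refine ⟨_, ice_tendsto, ?_, ?_⟩
  · exact exp_ge (by norm_num) (by norm_num) (by norm_num) (by norm_num)
      (ent_lower ice ice_const 1 2 _ _ _ (by norm_num) (by norm_num) (by norm_num)
        CI1.cert CI2.cert CI3.cert) (by norm_num)
  · have := ent_upper ice ice_const 1 2 _ _ CI4.cert
    refine exp_le (n := 4) (by norm_num) (by norm_num) (by norm_num)
      (le_trans (le_of_eq ?_) this) (by norm_num)
    norm_num
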