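import Pool.Agent.MP_7c8df0_mp.H36.Main

open Pool.Agent.MP_7c8df0_mp.H36 in
/-- The estimate of Pauling for the number of Eulerian orientations of a simple graph with even
degrees is correct up to a factor `exp ((log (d + 1) + C) / (d + 1))` for each vertex of degree
`d`. -/
theorem Pool.Agent.Results.MP_7c8df0_mp.Pauling.result :
    ∃ C : ℝ, ∀ (V : Type) [Fintype V] (G : SimpleGraph V) [DecidableRel G.Adj],
      (∀ v, Even (G.degree v)) → pauling G ≤ (eo G : ℝ) ∧ (eo G : ℝ) ≤ pauling G *
        Real.exp (∑ v, (Real.log ((G.degree v : ℝ) + 1) + C) / ((G.degree v : ℝ) + 1)) :=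
  ⟨_, fun _ _ G _ => main G⟩
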